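import Pool.Agent.Q189.SS.Spacing

/-!
# A weakly mixing, thickly sensitive system which is not filter-sensitive

The spacing shift whose forbidden differences form sparse blocks `[4^(k+1), 4^(k+1) + c_k]`, where
the sequence `c_k` takes every value infinitely often.
-/

set_option autoImplicit false

open Set Filter Topology Pool.Agent.Q189.SS

namespace Pool.Agent.Results.MP_bfac72_an.SpacingShift

section Defs

variable {X : Type*} [MetricSpace X]

/-- The set `S_T(U,δ)`. -/
def S (T : X → X) (U : Set X) (δ : ℝ) : Set ℕ :=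
  {n | ∃ x ∈ U, ∃ y ∈ U, δ < dist (T^[n] x) (T^[n] y)}

/-- The family `𝒮_T(δ)`. -/
def Fam (T : X → X) (δ : ℝ) : Set (Set ℕ) :=
  {A | ∃ U : Set X, IsOpen U ∧ U.Nonempty ∧ S T U δ ⊆ A}

/-- Filters of subsets of `ℕ` (in the sense of the problem). -/
def IsFilterFamily (F : Set (Set ℕ)) : Prop :=
  F.Nonempty ∧ F ≠ univ ∧ ∀ A ∈ F, ∀ B ∈ F, A ∩ B ∈ F

/-- Filter-sensitivity. -/
def FilterSensitive (T : X → X) : Prop := ∃ δ : ℝ, 0 < δ ∧ IsFilterFamily (Fam T δ)

/-- Thick sets. -/
def Thick (A : Set ℕ) : Prop := ∀ L : ℕ, ∃ n : ℕ, ∀ i < L, n + i ∈ A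

/-- Thick sensitivity. -/
def ThicklySensitive (T : X → X) : Prop :=
  ∃ δ : ℝ, 0 < δ ∧ ∀ U : Set X, IsOpen U → U.Nonempty → Thick (S T U δ)

/-- Transitivity: all hitting time sets are non-empty. -/
def IsTransitive {Y : Type*} [TopologicalSpace Y] (T : Y → Y) : Prop :=
  ∀ U V : Set Y, IsOpen U → U.Nonempty → IsOpen V → V.Nonempty → ∃ n : ℕ, (T^[n] '' U ∩ V).Nonempty

/-- Weak mixing. -/
def WeaklyMixing (T : X → X) : Prop := IsTransitive (Prod.map T T)

end Defs

/-- The lengths of the blocks. -/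
def cc (k : ℕ) : ℕ := (Nat.unpair k).1

/-- The positions of the blocks. -/
def aa (k : ℕ) : ℕ := 4 ^ (k + 1)

/-- The forbidden differences. -/
def E : Set ℕ := {e | ∃ k, aa k ≤ e ∧ e ≤ aa k + cc k}

theorem cc_le (k : ℕ) : cc k ≤ k := Nat.unpair_left_le k

theorem aa_succ (k : ℕ) : aa (k + 1) = 4 * aa k := by unfold aa; ring

theorem lt_aa (k : ℕ) : k + 3 < aa k := by
  induction k with
  | zero => unfold aa; norm_num
  | succ k ih => rw [aa_succ]; omega

theorem aa_mono {j k : ℕ} (h : j ≤ k) : aa j ≤ aa k := by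
  unfold aa
  exact Nat.pow_le_pow_right (by norm_num) (by omega)

/-- Between `2 * aa k` and `3 * aa k` there are no forbidden differences. -/
theorem gap (k e : ℕ) (h1 : aa k + k < e) (h2 : e < 4 * aa k) : e ∉ E := by
  rintro ⟨j, hj1, hj2⟩
  have := cc_le j
  rcases le_or_gt j k with h | h
  · have := aa_mono h
    omega
  · have := aa_mono (show k + 1 ≤ j from h)
    rw [aa_succ] at this
    omega

/-- Near `aa k` the forbidden differences are exactly the block. -/
theorem near (k e : ℕ) (h1 : aa k < 2 * e) (h2 : e < 4 * aa k) (he : e ∈ E) :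
    aa k ≤ e ∧ e ≤ aa k + cc k := by
  obtain ⟨j, hj1, hj2⟩ := he
  have hc := cc_le j
  rcases lt_trichotomy j k with h | h | h
  · have h3 := aa_mono (show j + 1 ≤ k from h)
    rw [aa_succ] at h3
    have := lt_aa j
    omega
  · subst h
    exact ⟨hj1, hj2⟩
  · have := aa_mono (show k + 1 ≤ j from h)
    rw [aa_succ] at this
    omega

theorem gapAt (k L : ℕ) (n : ℕ) (h1 : L + aa k + k < n) (h2 : n + L < 4 * aa k) : GapAt E n L :=
  ⟨by omega, fun e he1 he2 => gap k e (by omega) (by omega)⟩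

theorem exists_gap (L N : ℕ) : ∃ n ≥ N, GapAt E n L := by
  set k := 2 * L + N
  have := lt_aa k
  exact ⟨3 * aa k - L, by omega, gapAt k L _ (by omega) (by omega)⟩

/-- The space. -/
abbrev X : Type := Sp E

/-- The metric: `2^{-i}`, where `i` is the first place where the sequences differ. -/
noncomputable instance mX : MetricSpace X :=
  @MetricSpace.induced _ _ Subtype.val Subtype.val_injective PiNat.metricSpace

theorem dist_def (x y : X) : dist x y = @dist _ PiNat.dist (x : ℕ → Bool) (y : ℕ → Bool) := rfl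

theorem dist_le_one (x y : X) : dist x y ≤ 1 := by
  rw [dist_def]; exact PiNat.dist_le_one _ _

theorem dist_le_of_agree (x y : X) (c : ℕ) (h : ∀ i ≤ c, (x : ℕ → Bool) i = (y : ℕ → Bool) i) :
    dist x y ≤ (1 / 2) ^ (c + 1) := by
  rw [dist_def]
  exact PiNat.mem_cylinder_iff_dist_le.1 (PiNat.mem_cylinder_iff.2 fun i hi => h i (by omega))

theorem dist_of_zero (x y : X) (h : (x : ℕ → Bool) 0 ≠ (y : ℕ → Bool) 0) : dist x y = 1 := by
  have hne : (x : ℕ → Bool) ≠ (y : ℕ → Bool) := fun h' => h (by rw [h'])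
  rw [dist_def, PiNat.dist_eq_of_ne hne]
  have : PiNat.firstDiff (x : ℕ → Bool) (y : ℕ → Bool) = 0 := by
    by_contra h0
    exact h (PiNat.apply_eq_of_lt_firstDiff (Nat.pos_of_ne_zero h0))
  rw [this, pow_zero]

/-- Two points of a cylinder which differ at the time `n`. -/
theorem mem_S (U : Set X) (w : X) (L : ℕ)
    (hL : ∀ z : X, (∀ i < L, (z : ℕ → Bool) i = (w : ℕ → Bool) i) → z ∈ U) (n : ℕ) (hn : L ≤ n)
    (hE : ∀ i < L, (w : ℕ → Bool) i = true → n - i ∉ E) (δ : ℝ) (hδ : δ < 1) :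
    n ∈ S (TSp E) U δ := by
  have hx : (fun i => if i < L then (w : ℕ → Bool) i else false) ∈ Sp E := by
    intro i j hij h1 h2
    by_cases hj : j < L
    · simp only [if_pos hj] at h2
      simp only [if_pos (show i < L by omega)] at h1
      exact w.2 i j hij h1 h2
    · simp only [if_neg hj] at h2
      exact absurd h2 (by simp)
  have hy : (fun i => if i < L then (w : ℕ → Bool) i else decide (i = n)) ∈ Sp E := by
    intro i j hij h1 h2
    by_cases hj : j < L
    · simp only [if_pos hj] at h2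
      simp only [if_pos (show i < L by omega)] at h1
      exact w.2 i j hij h1 h2
    · simp only [if_neg hj] at h2
      have hjn : j = n := by simpa using h2
      by_cases hi : i < L
      · simp only [if_pos hi] at h1
        rw [hjn]
        exact hE i hi h1
      · simp only [if_neg hi] at h1
        have hin : i = n := by simpa using h1
        omega
  refine ⟨⟨_, hx⟩, hL _ fun i hi => by simp only [if_pos hi], ⟨_, hy⟩,
    hL _ fun i hi => by simp only [if_pos hi], ?_⟩
  rw [dist_of_zero]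
  · exact hδ
  · rw [TSp_iter_apply, TSp_iter_apply, zero_add]
    simp only [if_neg (not_lt.2 hn)]
    simp

theorem transitive : IsTransitive (TSp E) := by
  intro U V hU hUne hV hVne
  obtain ⟨L, h⟩ := hit_of_gap hU hV hUne hVne
  obtain ⟨n, -, hn⟩ := exists_gap L 0
  obtain ⟨z, hz1, hz2⟩ := h L le_rfl n hn
  exact ⟨n, _, ⟨z, hz1, rfl⟩, hz2⟩

theorem weaklyMixing : WeaklyMixing (TSp E) := by
  intro U V hU ⟨u, hu⟩ hV ⟨v, hv⟩
  obtain ⟨U1, U2, hU1, hU2, hu1, hu2, hUU⟩ := isOpen_prod_iff.1 hU u.1 u.2 hu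
  obtain ⟨V1, V2, hV1, hV2, hv1, hv2, hVV⟩ := isOpen_prod_iff.1 hV v.1 v.2 hv
  obtain ⟨L1, h1⟩ := hit_of_gap hU1 hV1 ⟨_, hu1⟩ ⟨_, hv1⟩
  obtain ⟨L2, h2⟩ := hit_of_gap hU2 hV2 ⟨_, hu2⟩ ⟨_, hv2⟩
  obtain ⟨n, -, hn⟩ := exists_gap (L1 + L2) 0
  obtain ⟨p, hp, hp'⟩ := h1 (L1 + L2) (by omega) n hn
  obtain ⟨q, hq, hq'⟩ := h2 (L1 + L2) (by omega) n hn
  refine ⟨n, _, ⟨(p, q), hUU ⟨hp, hq⟩, rfl⟩, ?_⟩
  rw [Prod.map_iterate]
  exact hVV ⟨hp', hq'⟩

theorem thick : ThicklySensitive (TSp E) := by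
  refine ⟨1 / 2, by norm_num, fun U hU ⟨w, hw⟩ L => ?_⟩
  obtain ⟨L0, hL0⟩ := exists_cyl_Sp hU hw
  set k := L + L0
  have := lt_aa k
  refine ⟨2 * aa k + L0, fun i hi => ?_⟩
  refine mem_S U w L0 hL0 _ (by omega) (fun j hj _ => gap k _ (by omega) (by omega)) _ (by norm_num)

theorem coord_open (m : ℕ) : IsOpen {z : X | (z : ℕ → Bool) m = true} := by
  have hc : Continuous (fun z : X => (z : ℕ → Bool) m) :=
    (continuous_apply m).comp continuous_subtype_val
  exact (isOpen_discrete ({true} : Set Bool)).preimage hc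

theorem coord_ne (m : ℕ) : {z : X | (z : ℕ → Bool) m = true}.Nonempty := by
  refine ⟨⟨fun i => decide (i = m), ?_⟩, by simp⟩
  intro i j hij h1 h2
  have h3 : i = m := by simpa using h1
  have h4 : j = m := by simpa using h2
  omega

/-- If `n ∈ S({z m = 1}, δ)` then some difference `n + i - m`, `i ≤ c`, is allowed. -/
theorem not_mem_S (m n c : ℕ) (δ : ℝ) (hδ : (1 / 2 : ℝ) ^ (c + 1) ≤ δ) (hmn : m < n)
    (hE : ∀ i ≤ c, n + i - m ∈ E) : n ∉ S (TSp E) {z : X | (z : ℕ → Bool) m = true} δ := by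
  rintro ⟨x, hx, y, hy, h⟩
  refine absurd h (not_lt.2 ((dist_le_of_agree _ _ c fun i hi => ?_).trans hδ))
  rw [TSp_iter_apply, TSp_iter_apply]
  have key : ∀ z : X, (z : ℕ → Bool) m = true → (z : ℕ → Bool) (i + n) = false := by
    intro z hz
    by_contra hne
    have h1 : (z : ℕ → Bool) (i + n) = true := by simpa using hne
    have := z.2 m (i + n) (by omega) hz h1
    rw [add_comm i n] at this
    exact this (hE i hi)
  rw [key x hx, key y hy]

theorem not_filterSensitive : ¬ FilterSensitive (TSp E) := by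
  rintro ⟨δ, hδ0, -, hne, hint⟩
  rcases le_or_gt 1 δ with h1 | h1
  · -- the family is improper
    apply hne
    rw [eq_univ_iff_forall]
    intro A
    refine ⟨univ, isOpen_univ, univ_nonempty, ?_⟩
    rintro n ⟨x, -, y, -, h⟩
    exact absurd h (not_lt.2 ((dist_le_one _ _).trans h1))
  · obtain ⟨c, hc⟩ : ∃ c : ℕ, (1 / 2 : ℝ) ^ (c + 1) ≤ δ := by
      obtain ⟨c, hc⟩ := exists_pow_lt_of_lt_one hδ0 (by norm_num : (1 / 2 : ℝ) < 1)
      refine ⟨c, le_trans ?_ hc.le⟩
      exact pow_le_pow_of_le_one (by norm_num) (by norm_num) (by omega)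
    set k0 := Nat.pair c 0 with hk0
    have hck0 : cc k0 = c := by unfold cc; rw [hk0, Nat.unpair_pair]
    set m := aa k0 + c with hm
    have hA := hint _ ⟨_, coord_open m, coord_ne m, Subset.rfl⟩ _ ⟨_, coord_open 0, coord_ne 0, Subset.rfl⟩
    obtain ⟨U, hU, ⟨w, hw⟩, hsub⟩ := hA
    obtain ⟨L, hL⟩ := exists_cyl_Sp hU hw
    -- a far block of length exactly `c`
    set k := Nat.pair c (2 * L + m) with hk
    have hck : cc k = c := by unfold cc; rw [hk, Nat.unpair_pair]
    have hkL : 2 * L + m ≤ k := Nat.right_le_pair _ _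
    have hak := lt_aa k
    have hcm : c < m := by
      have := lt_aa k0
      omega
    by_cases hw0 : (w : ℕ → Bool) 0 = true ∧ 0 < L
    · -- use the set `z m = 1`
      have hn : aa k + m ∈ S (TSp E) U δ := by
        refine mem_S U w L hL _ (by omega) (fun j hj hwj hE' => ?_) δ h1
        have h2 := near k (aa k + m - j) (by omega) (by omega) hE'
        rw [hck] at h2
        have h3 : 0 < j := by omega
        have h4 := w.2 0 j h3 hw0.1 hwj
        apply h4
        refine ⟨k0, ?_, ?_⟩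
        · omega
        · rw [hck0]; omega
      have h5 := (hsub hn).1
      exact not_mem_S m _ c δ hc (by omega) (fun i hi => ⟨k, by omega, by rw [hck]; omega⟩) h5
    · have hn : aa k ∈ S (TSp E) U δ := by
        refine mem_S U w L hL _ (by omega) (fun j hj hwj hE' => ?_) δ h1
        have h2 := near k (aa k - j) (by omega) (by omega) hE'
        have h3 : j = 0 := by omega
        subst h3
        exact hw0 ⟨hwj, hj⟩
      have h5 := (hsub hn).2
      exact not_mem_S 0 _ c δ hc (by omega) (fun i hi => ⟨k, by omega, by rw [hck]; omega⟩) h5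

/-- **Negative answers to Q1 and Q2.** There is a system which is weakly mixing (hence transitive)
and thickly sensitive, but not filter-sensitive. -/
theorem result : ∃ (X : Type) (_ : MetricSpace X) (_ : CompactSpace X) (_ : Nontrivial X)
    (T : X → X), Continuous T ∧ Function.Surjective T ∧ IsTransitive T ∧ WeaklyMixing T ∧
    ThicklySensitive T ∧ ¬ FilterSensitive T := by
  refine ⟨X, mX, inferInstance, ?_, TSp E, TSp_continuous E, TSp_surjective E, transitive,
    weaklyMixing, thick, not_filterSensitive⟩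
  obtain ⟨z, hz⟩ := coord_ne 0
  exact ⟨z, zeroSp E, fun h => by rw [h] at hz; exact absurd hz (by simp [zeroSp])⟩

end Pool.Agent.Results.MP_bfac72_an.SpacingShift
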